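import Pool.Agent.H964.LF.Main

/-!
# Liouville first passage percolation with small parameter: the exponent `4 / 3`

`h ε z` is the average over the circle of radius `ε` around `z` of a whole-plane Gaussian free field,
in a version which is continuous in `z` (`WholePlaneGFF`). For a path `γ` the LFPP length with
parameter `ξ` at scale `ε` is `∫₀¹ exp (ξ h_ε (γ t)) |γ' t| dt` (`lfppLength`).

The theorem: for small `ξ`, with probability `1 - O(ε)`, every path which starts in the disc of radius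
`R` and ends at distance at least `r` from its starting point has LFPP length at least
`ε ^ (C ξ^(4/3) (log (1/ξ))^(4/3))`.

In the notation of Ding and Gwynne, LFPP distances are `ε ^ (1 - ξ Q + o(1))` with `ξ = γ / d_γ`, so
this is the bound `1 - ξ Q ≤ C ξ^(4/3) (log (1/ξ))^(4/3)`, that is
`d_γ ≤ 2 + O (γ^(4/3) (log (1/γ))^(4/3))` as `γ → 0` (matter central charge tending to `-∞`).

The proof: a binary tree of segments subdivides a path (first hitting points of the perpendicular
bisectors); the line averages of the field over the segments are compared with the weights by the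
arithmetic-geometric mean and Hölder inequalities with exponent `p = ξ^(-4/3) (log (1/ξ))^(-1/3)`, and
the expectation of the resulting potential is bounded by induction over the tree.
-/

set_option autoImplicit false

universe u

namespace Pool.Agent.H964.Old.SmallXiFourThirds

open MeasureTheory ProbabilityTheory Filter Topology

/-- Covariance kernel of the whole-plane Gaussian free field normalised to have average `0` over the
unit circle. -/
noncomputable def kernel (z w : ℂ) : ℝ :=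
  Real.log (max ‖z‖ 1) + Real.log (max ‖w‖ 1) - Real.log ‖z - w‖

/-- `h r z` (for `r > 0`) is the average over the circle of radius `r` around `z` of a whole-plane
Gaussian free field normalised to have average `0` over the unit circle; for each `r` it is
continuous in `z`, almost surely. -/
structure WholePlaneGFF {Ω : Type u} [MeasurableSpace Ω] (P : Measure Ω) (h : ℝ → ℂ → Ω → ℝ) : Prop where
  measurable : ∀ r z, 0 < r → Measurable (h r z)
  gaussian : IsGaussianProcess (fun p : Set.Ioi (0 : ℝ) × ℂ => h p.1 p.2) P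
  mean : ∀ r z, 0 < r → ∫ ω, h r z ω ∂P = 0
  cov : ∀ r z s w, 0 < r → 0 < s → covariance (h r z) (h s w) P =
    Real.circleAverage (fun x => Real.circleAverage (fun y => kernel x y) w s) z r
  continuous : ∀ r, 0 < r → ∀ᵐ ω ∂P, Continuous fun z => h r z ω

/-- Paths `γ : [0, 1] → ℂ`: continuous, differentiable off a countable set, with integrable
derivative. Every piecewise continuously differentiable path is one. -/
structure Path01 (γ : ℝ → ℂ) : Prop where
  cont : ContinuousOn γ (Set.Icc 0 1)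
  diff : ∃ s : Set ℝ, s.Countable ∧ ∀ t ∈ Set.Ioo (0 : ℝ) 1 \ s, DifferentiableAt ℝ γ t
  int : IntervalIntegrable (deriv γ) volume 0 1

/-- The length `∫₀¹ exp (ξ g (γ t)) |γ' t| dt`. -/
noncomputable def lfppLength (ξ : ℝ) (g : ℂ → ℝ) (γ : ℝ → ℂ) : ℝ :=
  ∫ t in (0 : ℝ)..1, Real.exp (ξ * g (γ t)) * ‖deriv γ t‖

theorem result :
    ∃ C : ℝ, 0 < C ∧ ∃ ξ₀ : ℝ, 0 < ξ₀ ∧ ξ₀ ≤ 1 ∧ ∀ ξ : ℝ, 0 < ξ → ξ < ξ₀ →
      ∀ (Ω : Type u) [MeasurableSpace Ω] (P : Measure Ω) (h : ℝ → ℂ → Ω → ℝ), WholePlaneGFF P h →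
        ∀ R r : ℝ, 0 < R → 0 < r → ∃ C' : ℝ, 0 < C' ∧ ∃ ε₀ : ℝ, 0 < ε₀ ∧ ε₀ ≤ 1 ∧
          ∀ ε : ℝ, 0 < ε → ε < ε₀ →
            P {ω | ∃ γ : ℝ → ℂ, Path01 γ ∧ ‖γ 0‖ ≤ R ∧ r ≤ ‖γ 1 - γ 0‖ ∧
              lfppLength ξ (fun z => h ε z ω) γ <
                ε ^ (C * (ξ ^ (4 / 3 : ℝ) * Real.log (1 / ξ) ^ (4 / 3 : ℝ)))} ≤
              ENNReal.ofReal (C' * ε) := by
  obtain ⟨L₀, hL₀⟩ := eventually_atTop.1 Pool.Agent.H964.ev_pL
  refine ⟨10 ^ 10, by norm_num, Real.exp (-(max L₀ 2)), Real.exp_pos _, ?_, ?_⟩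
  · rw [Real.exp_le_one_iff]
    have := le_max_right L₀ 2
    linarith
  intro ξ hξ0 hξ1 Ω _ P h hh R r hR hr
  have hG : Pool.Agent.Y980.IsGFF P h := ⟨hh.measurable, hh.gaussian, hh.mean, hh.cov⟩
  set L := Real.log (1 / ξ) with hL
  have hLlog : L = -Real.log ξ := by rw [hL, one_div, Real.log_inv]
  have hξ : Real.exp (-L) = ξ := by rw [hLlog, neg_neg, Real.exp_log hξ0]
  have hLmax : max L₀ 2 ≤ L := by
    have := Real.log_lt_log hξ0 hξ1
    rw [Real.log_exp] at this
    linarith
  have h1 : 2 ≤ L := (le_max_right _ _).trans hLmax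
  have h2 := hL₀ L ((le_max_left _ _).trans hLmax)
  obtain ⟨C', hC', ε₀, hε₀, hε₁, hmain⟩ :=
    Pool.Agent.H964.lfpp_lower hG hh.continuous h1 h2 hR.le hr
  rw [hξ] at hmain
  refine ⟨C' + 1, by positivity, ε₀, hε₀, hε₁, ?_⟩
  intro ε hε hε'
  refine le_trans (measure_mono ?_) ((hmain ε hε hε').trans (ENNReal.ofReal_le_ofReal ?_))
  · rintro ω ⟨γ, hγ, a1, a2, a3⟩
    exact ⟨γ, ⟨hγ.cont, hγ.diff, hγ.int⟩, a1, a2, a3⟩
  · nlinarith

end Pool.Agent.H964.Old.SmallXiFourThirds
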